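import Pool.Agent.helper83.OD.Spec

set_option autoImplicit false

open Finset PowerSeries

noncomputable section

namespace Pool.Agent.OD

open Pool.Agent.EP

theorem ID16_pos {u : ℕ} (hu : u.Coprime 6) : 1 ≤ u := by
  rcases Nat.eq_zero_or_pos u with h | h
  · subst h
    exact absurd hu (by decide)
  · exact h

theorem ID16 (hODR : ODR_stmt) (hF5 : F5_stmt) (hV5 : V5_stmt) (hV16 : V16_stmt)
    (hJSY : JSY_stmt) (hJN : JN_stmt) (hWM : WM_stmt) : ID16_stmt := by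
  intro n hn M
  obtain ⟨c, hc⟩ := hODR n hn
  rw [hc M]
  congr 1
  have hc5 := hc 5
  have h5 : (vvx ^ 5).coeff (5 : ℤ) = 1 := by
    have h := hV5 5
    have hcard : #{x ∈ range (5 + 1) ×ˢ range (5 + 1) | x.1.Coprime 6 ∧ x.2.Coprime 6 ∧
        x.1 ^ 2 + 4 * x.2 ^ 2 = 5} = 1 := by decide
    rw [Nat.cast_ofNat] at h
    rw [h]
    have : (#{x ∈ range (5 + 1) ×ˢ range (5 + 1) | x.1.Coprime 6 ∧ x.2.Coprime 6 ∧
        x.1 ^ 2 + 4 * x.2 ^ 2 = 5} : ZMod 2) = ((1 : ℕ) : ZMod 2) := by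
      rw [← hcard]
      congr!
    simpa using this
  rw [h5, mul_one] at hc5
  rw [← hc5]
  -- the other side
  have hinv : ww * vvx = 1 := hWM.2
  have hvv : ww ^ 5 * vvx ^ 16 = vvx ^ 11 := by
    calc ww ^ 5 * vvx ^ 16 = (ww * vvx) ^ 5 * vvx ^ 11 := by ring
      _ = vvx ^ 11 := by rw [hinv, one_pow, one_mul]
  have h16 := hV16 5 (ww ^ 5) (fun N hN => by
    rw [hWM.1 5 N, if_neg]
    rintro ⟨_, h⟩
    push_cast at hN h
    omega) (n : ℤ)
  rw [hvv] at h16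
  rw [h16]
  have e1 : ((5 : ℤ) + n).toNat = n + 5 := by omega
  have e2 : ((n : ℤ) + (5 : ℕ)).toNat = n + 5 := by omega
  rw [e1, e2]
  have hn0 : 0 < n := by omega
  have hS2 : ∑ u ∈ uu n, JG ac (n - 16 * u ^ 2) 5 =
      ∑ u ∈ uu n, (ww ^ 5).coeff ((n : ℤ) - 16 * (u : ℤ) ^ 2) := by
    refine Finset.sum_congr rfl fun u hu => ?_
    have hu' := (Finset.mem_filter.mp hu).2
    have hne : 16 * u ^ 2 ≠ n := by
      intro h
      omega
    have hlt : 16 * u ^ 2 < n := lt_of_le_of_ne hu'.2 hne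
    have h1 := hJSY (n - 16 * u ^ 2) 5 (by omega) (by norm_num)
    rw [Nat.cast_ofNat] at h1
    rw [h1, ← hF5]
    congr 1
    rw [Nat.cast_sub hu'.2]
    push_cast
    ring
  have hsub : uu (n + 5) ∩ uu n = uu n := by
    apply Finset.inter_eq_right.mpr
    intro u hu
    have hu' := Finset.mem_filter.mp hu
    have hr := Finset.mem_range.mp hu'.1
    refine Finset.mem_filter.mpr ⟨Finset.mem_range.mpr (by omega), hu'.2.1, by omega⟩
  have hS2' : ∑ u ∈ uu n, (ww ^ 5).coeff ((n : ℤ) - 16 * (u : ℤ) ^ 2) =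
      ∑ u ∈ uu (n + 5), if u ∈ uu n then (ww ^ 5).coeff ((n : ℤ) - 16 * (u : ℤ) ^ 2) else 0 := by
    rw [Finset.sum_ite_mem, hsub]
  rw [hS2, hS2', ← Finset.sum_add_distrib]
  refine Finset.sum_congr rfl fun u hu => ?_
  have hu' := (Finset.mem_filter.mp hu).2
  have hu1 := ID16_pos hu'.1
  have hsq : 1 ≤ u ^ 2 := Nat.one_le_pow _ _ hu1
  have hle : u ≤ u ^ 2 := by nlinarith
  have hneg : (5 : ℤ) - 16 * (u : ℤ) ^ 2 < 0 := by
    have : (1 : ℤ) ≤ (u : ℤ) ^ 2 := by exact_mod_cast hsq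
    omega
  rw [hJN n _ hn0 hneg]
  by_cases hun : u ∈ uu n
  · rw [if_pos hun]
    have hun' := (Finset.mem_filter.mp hun).2
    have h2 : (16 : ℤ) * (u : ℤ) ^ 2 ≤ n := by exact_mod_cast hun'.2
    rw [if_neg (by omega), zero_add]
  · rw [if_neg hun, add_zero]
    have hgt : n < 16 * u ^ 2 := by
      by_contra hcon
      apply hun
      refine Finset.mem_filter.mpr ⟨Finset.mem_range.mpr (by omega), hu'.1, by omega⟩
    have hgt' : (n : ℤ) < 16 * (u : ℤ) ^ 2 := by exact_mod_cast hgt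
    rw [hF5, hJN 5 _ (by norm_num) (by omega)]
    by_cases h3 : (n : ℤ) + 5 = 16 * (u : ℤ) ^ 2
    · rw [if_pos (by omega), if_pos (by push_cast; omega)]
    · rw [if_neg (by omega), if_neg (by push_cast; omega)]

end Pool.Agent.OD
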